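import Pool.Agent.N375.AV.F
import Pool.Agent.N375.AV.Ex
import Pool.Agent.N578.TG.Tor

/-!
# Torsion of abelian varieties isogenous to powers of elliptic curves, near values of additive functions

The elliptic curves over `K`, of all heights, such that the radical of the invariant is near a value of a
composition of functions dominated by the largest prime factor (sum of the prime factors, largest prime
factor, Kempner's function, …).
-/

set_option autoImplicit false

namespace Pool.Agent.Results.MP_160b6c_nt.AdditiveValues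

open PowersAllHeights (Invariants radical SmallTorsion)
open Pool.Agent.N733.TG (Expanding)
open Pool.Agent.N375.AV (PD comp good pd_additive pd_sopfr pd_largest pd_kempner)

/-- Let `K` be a number field and `0 < t < 1`. (1) There is `η > 0` such that for all compositions `F` of functions
with the property `PD` and all expanding `G` of order one there are `c > 0` and `K'` such that for all `m ≤ N` but at most
`K' N exp (-c (log N)^(1/(k+1)))`, where `k` is the number of functions: ALL `j ≠ 0, 1728` in `K` with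
`|radical j - G (F m)| ≤ F(m)^(1/3 + η)` have the property `SmallTorsion t j`: all abelian varieties isogenous to a power
`E ^ g` of a curve of invariant `j` are isomorphic to `E ^ g`, have no torsion over `K`, and the order `n` of their
torsion points over an extension of degree `D` satisfies `n ^ 2 ≤ 2 D` as long as `(2 D) ^ [K : ℚ] ≤ H(j) ^ (1 - t)`.
(2) The additive functions with `f(q^j) ≤ C q^j` which are injective at the large primes, the sum of the prime factors,
the largest prime factor and Kempner's function have the property `PD`; `α v` (`α > 0`) is expanding of order one. -/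
theorem result :
    (∀ (K : Type) [Field K] [NumberField K] (t : ℝ), 0 < t → t < 1 → ∃ η : ℝ, 0 < η ∧
      ∀ fs : List (ℕ → ℕ), (∀ f ∈ fs, PD f) → ∀ G : ℕ → ℝ, Expanding G 1 → ∃ c K' : ℝ, 0 < c ∧ ∀ N : ℕ, 1 ≤ N →
        ({m : ℕ | 1 ≤ m ∧ m ≤ N ∧ ¬ ∀ j : K, j ≠ 0 ∧ j ≠ 1728 →
          |radical j - G (comp fs m)| ≤ (comp fs m : ℝ) ^ (1 / 3 + η) → SmallTorsion t j}.ncard : ℝ) ≤
            K' * N * Real.exp (-(c * Real.log N ^ ((1 : ℝ) / (fs.length + 1))))) ∧
    (∀ f : ℕ → ℕ, (∀ a b : ℕ, Nat.Coprime a b → f (a * b) = f a + f b) →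
      (∃ C : ℕ, ∀ q j : ℕ, q.Prime → 1 ≤ j → f (q ^ j) ≤ C * q ^ j) →
      (∃ P : ℕ, ∀ p q : ℕ, p.Prime → q.Prime → P ≤ p → P ≤ q → f p = f q → p = q) → PD f) ∧
    PD (fun n => n.primeFactorsList.sum) ∧ PD (fun n => n.primeFactors.sup id) ∧
    PD (fun n => sInf {k : ℕ | n ∣ k.factorial}) ∧
    ∀ α : ℝ, 0 < α → Expanding (fun v => α * (v : ℝ) ^ (1 : ℝ)) 1 := by
  refine ⟨?_, fun f h1 h2 h3 => pd_additive h1 h2 h3, pd_sopfr, pd_largest, pd_kempner,
    fun α hα => Pool.Agent.N733.TG.expanding_pow hα le_rfl⟩
  intro K _ _ t ht0 ht1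
  obtain ⟨s, C, hs0, hs, hC, hfew⟩ := Pool.Agent.N578.TG.Tor.few K t ht0 ht1
  refine ⟨(2 / 3 - s) / 2, by linarith, fun fs hfs G hG => ?_⟩
  refine good (fun j : K => j ≠ 0 ∧ j ≠ 1728) (fun j : K => SmallTorsion t j) (fun j : K => radical j) fs hfs hG
    (s := s) (κ := 1 / 3 + (2 / 3 - s) / 2) hs0 (by linarith) (by linarith) (fun ε hε => ⟨C, fun X hX => ?_⟩)
  obtain ⟨h1, h2⟩ := hfew X hX
  refine ⟨h1, h2.trans ?_⟩
  apply mul_le_mul_of_nonneg_left _ hC
  exact Real.rpow_le_rpow_of_exponent_le hX (by linarith)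

end Pool.Agent.Results.MP_160b6c_nt.AdditiveValues
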